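import Pool.Agent.Lib.MP_b7851d_lc.WordEq

/-!
# Quadratic word equations with a bounded number of variables: decidable in polynomial time
-/

namespace Pool.Agent.Results.MP_b7851d_lc.BoundedVariablesInP

open Pool.Agent.QuadEq

/-- For every `v` there is a polynomial-time algorithm which decides, for every quadratic word
equation with at most `v` variables, whether it has a solution over a given alphabet `S` which
contains its constants (the answer does not depend on `S`). -/
theorem result (v : ℕ) : ∃ f : WordEq → Bool,
    Nonempty (Turing.TM2ComputableInPolyTime WordEq.encode Computability.encodeBool f) ∧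
    ∀ E : WordEq, E.IsQuadratic → E.vars.card ≤ v → ∀ S : Set ℕ, E.IsAlphabet S →
      (f E = true ↔ ∃ h, E.IsSolution S h) := by
  refine ⟨fun E => decE (bnd v) (readE E.encode), ?_, ?_⟩
  · exact PolyTime.PolyFn.toTM2 (F := fun w => decE (bnd v) (readE w))
      ((poly_decE (bnd v)).comp poly_readE) WordEq.encode _ (fun _ => rfl)
  · intro E hE hv S hS
    simp only
    rw [encode_eq, readE_encE, decE_iff]
    constructor
    · intro h
      obtain ⟨h', h1, -⟩ := h.sound (quad_tr hE) le_rfl le_rfl
      exact ⟨_, solution_of_solves hS h1⟩
    · rintro ⟨h, hh⟩
      exact complete v _ (quad_tr hE) ((card_vars_tr E).trans hv) (solves_of_solution hh)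

end Pool.Agent.Results.MP_b7851d_lc.BoundedVariablesInP
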