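import Pool.Agent.Lib.MP_b7851d_lc.WordEq

/-!
# Quadratic word equations with a bounded number of variables: short solutions
-/

namespace Pool.Agent.Results.MP_b7851d_lc.LinearSolutions

open Pool.Agent.QuadEq

/-- There is a function `C` such that every solvable quadratic word equation of length `n` with at
most `v` variables has a solution in which the value of every variable has length at most
`C v * n`. -/
theorem result : ∃ C : ℕ → ℕ, ∀ (v : ℕ) (E : WordEq), E.IsQuadratic → E.vars.card ≤ v →
    ∀ S : Set ℕ, E.IsAlphabet S → (∃ h, E.IsSolution S h) →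
      ∃ h, E.IsSolution S h ∧ ∀ x, (h x).length ≤ C v * E.length := by
  refine ⟨fun v => (2 * v + 2) ^ bnd v, ?_⟩
  rintro v E hE hv S hS ⟨h, hh⟩
  have h1 := complete v _ (quad_tr hE) ((card_vars_tr E).trans hv) (solves_of_solution hh)
  obtain ⟨h', h2, h3⟩ := h1.sound (quad_tr hE) ((card_vars_tr E).trans hv) (length_tr E).le
  refine ⟨_, solution_of_solves hS h2, fun x => (length_rd S _).trans ((h3 _).trans ?_)⟩
  rw [mul_comm]

end Pool.Agent.Results.MP_b7851d_lc.LinearSolutions
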