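import Pool.Agent.Lib.MP_b7851d_lc.Star.All
import Pool.Agent.Lib.MP_b7851d_lc.Input

/-!
# Satisfiability of quadratic word equations is in NP
-/

namespace Pool.Agent.Results.MP_b7851d_lc.QuadraticInNP

open Pool.Agent.QuadEq Pool.Agent.PolyTime

/-- The encoding of an input, a word equation together with its alphabet: the encoding of the
equation, the separator `none`, and every letter of the alphabet as a comma followed by its
binary expansion. -/
def encodeInput (x : WordEq × List ℕ) : List (Option (Option Bool)) :=
  x.1.encode ++ none :: x.2.flatMap fun a => some none :: a.bits.map fun b => some (some b)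

/-- The encoding of pairs of an input and a certificate: the two encodings are separated by
`none`. -/
def encodePair (p : (WordEq × List ℕ) × List Bool) : List (Option (Option (Option Bool))) :=
  (encodeInput p.1).map some ++ none :: p.2.map fun b => some (some (some b))

/-- The satisfiability problem for quadratic word equations: the set of all pairs of a quadratic
word equation and a finite alphabet, which contains the constants of the equation, such that the
equation has a solution with values in the words over the alphabet. -/
def QuadraticSat : Set (WordEq × List ℕ) :=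
  {x | x.1.IsQuadratic ∧ x.1.IsAlphabet {a | a ∈ x.2} ∧
    ∃ h : ℕ → List ℕ, x.1.IsSolution {a | a ∈ x.2} h}

theorem encodeInput_eq (E : WordEq) (A : List ℕ) :
    encodeInput (E, A) = encE (tr E) ++ none :: encW (A.map Nat.bits) := by
  unfold encodeInput
  rw [encode_eq]
  simp only
  congr 2
  unfold encW
  rw [List.flatMap_map]

/-- **Satisfiability of quadratic word equations is in NP**: there is a polynomial-time verifier
`V` of certificates of polynomial length. -/
theorem result : ∃ V : (WordEq × List ℕ) × List Bool → Bool,
    Nonempty (Turing.TM2ComputableInPolyTime encodePair Computability.encodeBool V) ∧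
    ∃ p : Polynomial ℕ, ∀ x : WordEq × List ℕ, x ∈ QuadraticSat ↔
      ∃ c : List Bool, c.length ≤ p.eval (encodeInput x).length ∧ V (x, c) = true := by
  obtain ⟨K, hKb, hK⟩ := Star.Asm.starStm
  have hdec : ∀ (x : WordEq × List ℕ) (c : List Bool), blocks (encodePair (x, c)) =
      [encodeInput x, c.map fun b => some (some b)] := by
    intro x c
    have h1 : (c.map fun b => (some (some (some b)) : Option (Option (Option Bool)))) =
        (c.map fun b => (some (some b) : Option (Option Bool))).map some := by
      rw [List.map_map]
      rfl
    unfold encodePair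
    simp only
    rw [h1, blocks_cons, blocks_some]
  let G : (List (List Bool) × List (List Bool)) × List (List Bool) → List Bool → Bool :=
    fun y c => (quadB y.1 && alphB y.1 y.2) && verifyB y.1 c
  let F : List (Option (Option (Option Bool))) → Bool := fun w =>
    G (readI ((blocks w).headD []))
      (((blocks w).tail.headD []).map fun o => decide (o = some (some true)))
  have hF : ∀ (E : WordEq) (A : List ℕ) (c : List Bool),
      F (encodePair ((E, A), c)) = G (tr E, A.map Nat.bits) c := by
    intro E A c
    have h1 : (c.map fun b => (some (some b) : Option (Option Bool))).map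
        (fun o => decide (o = some (some true))) = c := by
      rw [List.map_map]
      conv_rhs => rw [← List.map_id c]
      exact List.map_congr_left fun b _ => by cases b <;> rfl
    simp only [F]
    rw [hdec, List.headD_cons, List.tail_cons, List.headD_cons, encodeInput_eq, readI_enc, h1]
  refine ⟨fun p => G (tr p.1.1, p.1.2.map Nat.bits) p.2, ?_, ?_⟩
  · refine PolyFn.toTM2 (F := F) ?_ encodePair _ (fun p => hF p.1.1 p.1.2 p.2)
    have hb : PolyFn fun w : List (Option (Option (Option Bool))) => blocks w :=
      PolyFn.blocks PolyFn.id
    have hI : PolyFn fun w : List (Option (Option (Option Bool))) =>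
        readI ((blocks w).headD []) := poly_readI.comp (PolyFn.headD hb (PolyFn.const []))
    refine PolyFn.and (PolyFn.and (poly_quadB (PolyFn.fst.comp hI))
      (poly_alphB (PolyFn.fst.comp hI) (PolyFn.snd.comp hI))) (poly_verify (PolyFn.fst.comp hI)
      (poly_unbits.comp (PolyFn.map (f := fun _ (o : Option (Option Bool)) =>
        decide (o = some (some true))) ?_ (PolyFn.headD (PolyFn.tail hb) (PolyFn.const [])))))
    exact PolyFn.decide_eq PolyFn.snd (PolyFn.const _)
  · have hpb : PB fun k => bM (FT K) (4 * k + 1) :=
      (PB.bM (PB.FT hKb)).comp (((PB.const 4).mul PB.id).add (PB.const 1))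
    obtain ⟨p, hp⟩ := hpb.2
    refine ⟨p, ?_⟩
    rintro ⟨E, A⟩
    constructor
    · rintro ⟨h1, h2, h, hh⟩
      obtain ⟨c, h3, h4⟩ := verifyB_complete_mv (g := FT K) h1
        fun N hN => exists_chain_all hK hKb.1 (quad_tr h1) hN (solves_of_solution hh)
      refine ⟨c, (h4.trans (hp _)).trans (poly_mono p ?_), ?_⟩
      · unfold encodeInput
        rw [List.length_append]
        exact Nat.le_add_right _ _
      · simp only [G]
        rw [Bool.and_eq_true, Bool.and_eq_true]
        exact ⟨⟨(quadB_iff E).mpr h1, (alphB_iff E A).mpr h2⟩, h3⟩
    · rintro ⟨c, -, h1⟩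
      simp only [G] at h1
      rw [Bool.and_eq_true, Bool.and_eq_true] at h1
      obtain ⟨⟨h2, h3⟩, h4⟩ := h1
      have h5 := (alphB_iff E A).mp h3
      obtain ⟨h', hh⟩ := verify_sound h4
      exact ⟨(quadB_iff E).mp h2, h5, _, solution_of_solves h5 hh⟩

end Pool.Agent.Results.MP_b7851d_lc.QuadraticInNP
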